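import Pool.Agent.H57.CS.Targets

/-!
# The structure on the names (MP_6ab439_lc), row SNI: the injection on the names
-/

set_option autoImplicit false

namespace Pool.Agent.H14.CS

open Pool.Agent.H68.BP Pool.Agent.H58.SF Pool.Agent.H53.GC Pool.Agent.H53.NR
open Pool.Agent.H57.AR (tp ty Ty INJ)
open Pool.Agent.H57.SO (Bh Sbn)
open Pool.Agent.H57.EQ (Cx)
open Pool.Agent.H57.LH (SS vs P0 c0 vt_c0 vs_eq_iff)
open Pool.Agent.H44.KR (HB Tyi TpOn)
open Pool.Agent.H72.CH
open Pool.Agent.H57.CS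
open Function

private theorem ty_of_tp {V W : Type} {ρ : Sig} (𝔹 : Str ρ V) {x y : W → V}
    (h : tp 𝔹 y = tp 𝔹 x) (j : W) : ty 𝔹 (y j) = ty 𝔹 (x j) := by
  funext l
  exact congrFun (congrFun (congrArg Prod.snd h) l) (fun _ => j)

private theorem tp_comp {V W W' : Type} {ρ : Sig} (𝔹 : Str ρ V) {x y : W → V}
    (h : tp 𝔹 x = tp 𝔹 y) (z : W' → W) :
    tp 𝔹 (fun a => x (z a)) = tp 𝔹 (fun a => y (z a)) := by
  refine Prod.ext ?_ ?_
  · funext a b
    exact congrFun (congrFun (congrArg Prod.fst h) (z a)) (z b)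
  · funext l v
    exact congrFun (congrFun (congrArg Prod.snd h) l) (fun i => z (v i))

section

variable {V N : Type} {ρ δ : Sig} {𝔹 : Str ρ V} {m : ℕ} {lv : V → V → ℕ} {𝔻 : Str δ N}
  {st : N → Fin m} {β : (Fin m → N) → V}

/-- there are infinitely many names of each sort -/
private theorem inf_names (hN : Nm 𝔹 m lv 𝔻 st β) (p : N) (F : Set N) (hF : F.Finite) :
    {q : N | st q = st p ∧ q ∉ F}.Infinite := by
  classical
  intro hfin
  obtain ⟨x', h1, -, h3⟩ := hN.hb.amg Unit ∅ (fun _ => p) (fun _ => p)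
    (hfin.toFinset ∪ hF.toFinset)
    ⟨fun i hi => hi.elim, fun l z hz => by
      exact (hz ⟨0, hN.hb.ar l⟩).elim⟩
  have h4 : x' () ∉ hfin.toFinset ∪ hF.toFinset := fun h => by
    obtain ⟨a, ha, -⟩ := h3 () h
    exact ha
  rw [Finset.mem_union, not_or, Set.Finite.mem_toFinset, Set.Finite.mem_toFinset] at h4
  exact h4.1 ⟨(hN.srt _ _).1 (ty_of_tp 𝔻 h1 ()), h4.2⟩

/-- an injective map is extended -/
private theorem ext_map (hN : Nm 𝔹 m lv 𝔻 st β) {J : Type} [Finite J] (s : J → N)
    (D : J → Prop) (x : {j : J // D j} → N) (hx : Injective x)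
    (hs : ∀ j, st (x j) = st (s j.1)) :
    ∃ y : J → N, Injective y ∧ (∀ j, st (y j) = st (s j)) ∧ ∀ j (h : D j), y j = x ⟨j, h⟩ := by
  classical
  have hr : (Set.range x).Finite := Set.finite_range x
  have hc : ∀ c : Fin m, ∃ f : ℕ → N, (∃ p, st p = c) →
      Injective f ∧ ∀ k, st (f k) = c ∧ f k ∉ Set.range x := by
    intro c
    by_cases h : ∃ p, st p = c
    · obtain ⟨p, rfl⟩ := h
      have hi := inf_names hN p _ hr
      refine ⟨fun k => (hi.natEmbedding _ k).1, fun _ => ⟨fun a b hab => ?_, fun k => ?_⟩⟩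
      · exact (hi.natEmbedding _).injective (Subtype.ext hab)
      · exact (hi.natEmbedding _ k).2
    · obtain ⟨n0⟩ := hN.hb.ne
      exact ⟨fun _ => n0, fun h' => (h h').elim⟩
  choose f hf using hc
  obtain ⟨e, he⟩ : ∃ e : J → ℕ, Injective e :=
    ⟨fun j => (Finite.equivFin J j).1, fun a b hab =>
      (Finite.equivFin J).injective (Fin.ext hab)⟩
  have hf' : ∀ j, Injective (f (st (s j))) ∧ ∀ k, st (f (st (s j)) k) = st (s j) ∧
      f (st (s j)) k ∉ Set.range x := fun j => hf _ ⟨s j, rfl⟩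
  refine ⟨fun j => if h : D j then x ⟨j, h⟩ else f (st (s j)) (e j), fun a b hab => ?_,
    fun j => ?_, fun j h => ?_⟩
  · by_cases ha : D a
    · by_cases hb : D b
      · simp only [dif_pos ha, dif_pos hb] at hab
        exact congrArg Subtype.val (hx hab)
      · simp only [dif_pos ha, dif_neg hb] at hab
        exact (((hf' b).2 _).2 ⟨_, hab⟩).elim
    · by_cases hb : D b
      · simp only [dif_neg ha, dif_pos hb] at hab
        exact (((hf' a).2 _).2 ⟨_, hab.symm⟩).elim
      · simp only [dif_neg ha, dif_neg hb] at hab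
        have h1 : st (s a) = st (s b) := by
          rw [← ((hf' a).2 (e a)).1, hab, ((hf' b).2 (e b)).1]
        rw [h1] at hab
        exact he ((hf' b).1 hab)
  · by_cases h : D j
    · simp only [dif_pos h]
      exact hs ⟨j, h⟩
    · simp only [dif_neg h]
      exact ((hf' j).2 _).1
  · simp only [dif_pos h]

end

theorem pf_SNI : T_SNI := by
  classical
  intro V N σ ρ δ 𝔸 𝔹 m lv 𝔻 st β _ hN hT hI
  refine ⟨fun t => t 0, fun _ _ A => A = Set.univ, ?_, fun _ => rfl, fun _ _ _ h => h⟩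
  intro W _ G
  obtain ⟨pr, hpr⟩ : ∃ pr : W → N × N, pr = fun w => (G 0 w, G 1 w) := ⟨_, rfl⟩
  have hpr0 : ∀ w, (pr w).1 = G 0 w := fun w => by rw [hpr]
  have hpr1 : ∀ w, (pr w).2 = G 1 w := fun w => by rw [hpr]
  let J := Set.range pr
  have : Finite J := (Set.finite_range pr).to_subtype
  let D : J → Prop := fun j => st j.1.1 = st j.1.2
  let s : {j : J // D j} → Fin m := fun j => st j.1.1.1
  have hFl : Finite (Fl s) := Subtype.finite
  let X0 : Fl s → Fl st := fun u => ⟨fun i => (u.1 i).1.1.1, fun i => u.2 i⟩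
  let X1 : Fl s → Fl st := fun u => ⟨fun i => (u.1 i).1.1.2, fun i =>
    ((u.1 i).2 : st (u.1 i).1.1.1 = st (u.1 i).1.1.2).symm.trans (u.2 i)⟩
  obtain ⟨ψF, hF1, hF2⟩ := hI (Fl s)
    (fun i u => if i = 0 then β (X0 u).1 else β (X1 u).1)
  have hF2' : ∀ u w, lv (ψF u) (ψF w) =
      min (lv (β (X0 u).1) (β (X0 w).1)) (lv (β (X1 u).1) (β (X1 w).1)) := hF2
  obtain ⟨x, hx1, hx2, hx3⟩ := hN.uni {j : J // D j} s ψF fun w w' j hj => by
    rw [hF2', le_min_iff, hN.lev (X0 w) (X0 w') j hj, hN.lev (X1 w) (X1 w') j hj]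
    constructor
    · rintro ⟨h0, h1⟩ i hi
      exact Subtype.ext (Subtype.ext (Prod.ext (h0 i hi) (h1 i hi)))
    · intro h
      exact ⟨fun i hi => by
        change (w.1 i).1.1.1 = (w'.1 i).1.1.1
        rw [h i hi], fun i hi => by
        change (w.1 i).1.1.2 = (w'.1 i).1.1.2
        rw [h i hi]⟩
  obtain ⟨y, hy1, hy2, hy3⟩ := ext_map hN (fun j : J => j.1.1) D x hx1 hx2
  have hyinj : ∀ u w, y ⟨pr u, u, rfl⟩ = y ⟨pr w, w, rfl⟩ ↔ pr u = pr w := by
    intro u w
    constructor
    · intro h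
      exact congrArg Subtype.val (hy1 h)
    · intro h
      exact congrArg y (Subtype.ext h)
  have hsort : ∀ w, st (y ⟨pr w, w, rfl⟩) = st (G 0 w) := fun w => by
    rw [hy2]
    exact congrArg st (hpr0 w)
  refine ⟨fun w => y ⟨pr w, w, rfl⟩, ?_, fun w => ?_, fun u w => ?_⟩
  · intro l z hz
    have hJ : ∀ q : Fin (σ.ar l) × Fin m, D ⟨pr (z (finProdFinEquiv q)), _, rfl⟩ := fun q => by
      change st (pr (z (finProdFinEquiv q))).1 = st (pr (z (finProdFinEquiv q))).2
      rw [hpr0, hpr1, (hz 0).1 q, (hz 1).1 q]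
    refine ⟨fun q => (hsort _).trans ((hz 0).1 q), ?_⟩
    let U : Fin (σ.ar l) → Fl s := fun a =>
      ⟨fun i => ⟨⟨pr (z (finProdFinEquiv (a, i))), _, rfl⟩, hJ (a, i)⟩, fun i => by
        change st (pr (z (finProdFinEquiv (a, i)))).1 = i
        rw [hpr0]
        exact (hz 0).1 (a, i)⟩
    have h1 : 𝔸 l (fun a => ψF (U a)) := by
      refine hF1 l U fun i => ?_
      have hi : i = 0 ∨ i = 1 := by omega
      rcases hi with rfl | rfl
      · have h2 := (hz 0).2
        have h3 : (fun a => β (X0 (U a)).1) =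
            fun a => β (fun i => G 0 (z (finProdFinEquiv (a, i)))) := by
          funext a
          refine congrArg β ?_
          funext i
          exact hpr0 _
        change 𝔸 l (fun a => β (X0 (U a)).1)
        rw [h3]
        exact h2
      · have h2 := (hz 1).2
        have h3 : (fun a => β (X1 (U a)).1) =
            fun a => β (fun i => G 1 (z (finProdFinEquiv (a, i)))) := by
          funext a
          refine congrArg β ?_
          funext i
          exact hpr1 _
        change 𝔸 l (fun a => β (X1 (U a)).1)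
        rw [h3]
        exact h2
    have h4 := hT l _ _ h1 (tp_comp 𝔹 hx3 U)
    have h5 : (fun a => β (fun i => x ((U a).1 i))) =
        fun a => β (fun i => y ⟨pr (z (finProdFinEquiv (a, i))), _, rfl⟩) := by
      funext a
      refine congrArg β ?_
      funext i
      exact (hy3 _ (hJ (a, i))).symm
    rw [h5] at h4
    exact h4
  · exact (vt_c0 𝔻 _).trans (((vs_eq_iff 𝔻 _ _).2 ((hN.srt _ _).2 (hsort w))).trans
      (vt_c0 𝔻 _).symm)
  · refine (hyinj u w).trans ?_
    constructor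
    · intro h
      refine Set.eq_univ_of_forall fun i => ?_
      have hi : i = 0 ∨ i = 1 := by omega
      rcases hi with rfl | rfl
      · change G 0 u = G 0 w
        rw [← hpr0, ← hpr0, h]
      · change G 1 u = G 1 w
        rw [← hpr1, ← hpr1, h]
    · intro h
      have h0 : G 0 u = G 0 w := by
        have : (0 : Fin 2) ∈ {i | G i u = G i w} := by
          rw [h]
          exact Set.mem_univ _
        exact this
      have h1 : G 1 u = G 1 w := by
        have : (1 : Fin 2) ∈ {i | G i u = G i w} := by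
          rw [h]
          exact Set.mem_univ _
        exact this
      refine Prod.ext ?_ ?_
      · rw [hpr0, hpr0, h0]
      · rw [hpr1, hpr1, h1]

end Pool.Agent.H14.CS
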