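import Pool.Agent.H57.CS.Targets

/-!
# The structure on the names (MP_6ab439_lc), row SNT: the relations depend only on types
-/

set_option autoImplicit false

namespace Pool.Agent.H14.CS

open Pool.Agent.H68.BP Pool.Agent.H58.SF Pool.Agent.H53.GC Pool.Agent.H53.NR
open Pool.Agent.H57.AR (tp ty Ty INJ)
open Pool.Agent.H44.KR (HB Tyi)
open Pool.Agent.H72.CH
open Pool.Agent.H57.CS

private theorem ty_of_tp {V W : Type} {ρ : Sig} (𝔹 : Str ρ V) {x y : W → V}
    (h : tp 𝔹 y = tp 𝔹 x) (j : W) : ty 𝔹 (y j) = ty 𝔹 (x j) := by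
  funext l
  exact congrFun (congrFun (congrArg Prod.snd h) l) (fun _ => j)

theorem pf_SNT : T_SNT := by
  intro V N σ ρ δ 𝔸 𝔹 m lv 𝔻 st β hN hT l x y hx htp
  have hst : ∀ j, st (y j) = st (x j) := fun j => (hN.srt _ _).1 (ty_of_tp 𝔻 htp j)
  refine ⟨fun q => (hst _).trans (hx.1 q), ?_⟩
  refine hT l _ _ hx.2 ?_
  exact (hN.inv (Fin (σ.ar l * m)) x y htp.symm (Fin (σ.ar l)) (fun k i => finProdFinEquiv (k, i))
    fun k i => hx.1 (k, i)).symm

end Pool.Agent.H14.CS
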